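import Pool.Agent.W2helper8.AF.Stm

/-!
# Project AF, piece ASM
-/

set_option autoImplicit false

namespace Pool.Agent.W2helper6.AF

open Finset
open Pool.Agent.W2helper8.AF
open scoped Classical

universe u
variable {V : Type u}

/-- two elements in every colour class `i ≠ 0` -/
theorem pairs {G : SimpleGraph V} {n q : ℕ} {Y : Finset V} {c : V → ℕ} (v0 : V) (hq : 2 ≤ q)
    (hs : Std4 G n q Y c) : ∃ a b : ℕ → V, ∀ i ∈ Ico 1 n, a i ∈ Y ∧ b i ∈ Y ∧ a i ≠ b i ∧
      c (a i) = i ∧ c (b i) = i := by
  have h : ∀ i : ℕ, ∃ p : V × V, i ∈ Ico 1 n → p.1 ∈ Y ∧ p.2 ∈ Y ∧ p.1 ≠ p.2 ∧ c p.1 = i ∧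
      c p.2 = i := by
    intro i
    by_cases hi : i ∈ Ico 1 n
    · have hi' := mem_Ico.1 hi
      have h1 := hs.2.2.2 i hi'.2
      rw [if_neg (by omega)] at h1
      have h2 : 1 < (Y.filter fun x => c x = i).card := by omega
      obtain ⟨x, hx, y, hy, hxy⟩ := Finset.one_lt_card.1 h2
      rw [mem_filter] at hx hy
      exact ⟨(x, y), fun _ => ⟨hx.1, hy.1, hxy, hx.2, hy.2⟩⟩
    · exact ⟨(v0, v0), fun h => absurd h hi⟩
  choose p hp using h
  exact ⟨fun i => (p i).1, fun i => (p i).2, hp⟩

theorem S_pair_clique {G : SimpleGraph V} {x y : V} (h : G.Adj x y) : S G {x, y} = 2 := by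
  have h1 : G.IsClique (({x, y} : Finset V) : Set V) := by
    intro a ha b hb hab
    simp only [coe_insert, coe_singleton, Set.mem_insert_iff, Set.mem_singleton_iff] at ha hb
    rcases ha with rfl | rfl <;> rcases hb with rfl | rfl
    · exact absurd rfl hab
    · exact h
    · exact h.symm
    · exact absurd rfl hab
  rw [S_clique h1, Finset.card_pair h.ne]

/-- the types are different -/
theorem inj {G : SimpleGraph V} {n q : ℕ} {Y U : Finset V} {c : V → ℕ} (hc : Ctx G n q Y U)
    (hs : Std G n q Y c) {u u' : V} (hu : u ∈ U) (hu' : u' ∈ U) (hne : u ≠ u') {i : ℕ}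
    (h1 : Ty G n Y c i u) (h2 : Ty G n Y c i u') : False := by
  have hadj : G.Adj u u' := hc.clq.1 (mem_coe.2 hu) (mem_coe.2 hu') hne
  have huY : u ∉ Y := fun h => (Finset.disjoint_left.1 hc.disj) h hu
  have huY' : u' ∉ Y := fun h => (Finset.disjoint_left.1 hc.disj) h hu'
  have hq := hc.hq
  have hn := hc.hn
  rcases eq_or_ne i 0 with hi | hi
  · -- core `T ∪ {u, u'}`
    subst hi
    set T := Y.filter fun x => c x = 0 with hT
    have hTY : T ⊆ Y := filter_subset _ _
    have hTc : T.card = q + 1 := by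
      have := hs.1.2.2.2 0 (by omega)
      rw [if_pos rfl] at this
      exact this
    have hTS : S G T = q ^ 2 + 1 := hs.2
    have hnT : ∀ v ∈ U, Ty G n Y c 0 v → (nb G T v).card = q := by
      intro v hv ht
      rw [← hc.su v hv]
      congr 1
      ext x
      simp only [mem_nb]
      constructor
      · rintro ⟨hx, hx2⟩
        exact ⟨hTY hx, hx2⟩
      · rintro ⟨hx, hx2⟩
        refine ⟨mem_filter.2 ⟨hx, ?_⟩, hx2⟩
        by_contra h0
        exact hx2 (ht.2.1 x hx h0)
    have hnC : ∀ v ∈ U, ∀ v' ∈ U, v ≠ v' → Ty G n Y c 0 v →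
        (nb G (T ∪ {v, v'}) v).card = q + 1 := by
      intro v hv v' hv' hvv ht
      have hvT : v ∉ T := fun h => (Finset.disjoint_left.1 hc.disj) (hTY h) hv
      have hvn : v ∉ nb G T v := fun h => hvT (mem_nb.1 h).1
      rw [← hnT v hv ht, ← Finset.card_insert_of_notMem hvn]
      congr 1
      ext x
      simp only [mem_nb, mem_union, mem_insert, mem_singleton]
      constructor
      · rintro ⟨hx | rfl | rfl, hx2⟩
        · exact Or.inr ⟨hx, hx2⟩
        · exact Or.inl rfl
        · exact absurd (hc.clq.1 (mem_coe.2 hv) (mem_coe.2 hv') hvv) hx2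
      · rintro (rfl | ⟨hx, hx2⟩)
        · exact ⟨Or.inr (Or.inl rfl), G.irrefl⟩
        · exact ⟨Or.inl hx, hx2⟩
    set C := T ∪ {u, u'} with hC
    have huT : u ∉ T := fun h => huY (hTY h)
    have huT' : u' ∉ T := fun h => huY' (hTY h)
    have hdisj : Disjoint T {u, u'} := by
      rw [Finset.disjoint_right]
      intro x hx
      rcases mem_insert.1 hx with rfl | hx
      · exact huT
      · rw [mem_singleton.1 hx]
        exact huT'
    have hCc : C.card = q + 3 := by
      rw [hC, Finset.card_union_of_disjoint hdisj, hTc, Finset.card_pair hne]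
    have hCS : S G C = q ^ 2 + 4 * q + 3 := by
      have e := S_sdiff G (W := C) (U := {u, u'}) subset_union_right
      have e1 : C \ {u, u'} = T := by
        rw [hC, Finset.union_sdiff_right, Finset.sdiff_eq_self_of_disjoint hdisj]
      rw [e1, S_pair_clique hadj, hTS, Finset.sum_pair hne, hnC u hu u' hu' hne h1] at e
      have e2 : (nb G C u').card = q + 1 := by
        rw [hC, Finset.pair_comm]
        exact hnC u' hu' u hu hne.symm h2
      rw [e2] at e
      nlinarith
    obtain ⟨a, b, hab⟩ := pairs u hq hs.1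
    have hcol : ∀ x ∈ C, ∀ y ∈ Y, c y ≠ 0 → G.Adj y x := by
      intro x hx y hy hy0
      rw [hC, mem_union, mem_insert, mem_singleton] at hx
      rcases hx with hx | rfl | rfl
      · refine hs.1.2.1 y hy x (hTY hx) ?_
        rw [(mem_filter.1 hx).2]
        exact hy0
      · exact (h1.2.1 y hy hy0).symm
      · exact (h2.2.1 y hy hy0).symm
    have hbad : Bad G ((Ico 1 n).card + 1) (Y ∪ U) := by
      refine bad_of_pairs (C := C) ⟨u, by simp [hC]⟩ ?_ (Ico 1 n) a b (Y ∪ U) ?_ ?_ ?_ ?_ ?_ ?_ ?_
        ?_ ?_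
      · rw [hCS, hCc]
        ring_nf
        rfl
      · intro x hx
        rw [hC, mem_union, mem_insert, mem_singleton] at hx
        rcases hx with hx | rfl | rfl
        · exact mem_union_left _ (hTY hx)
        · exact mem_union_right _ hu
        · exact mem_union_right _ hu'
      · exact fun i hi => mem_union_left _ (hab i hi).1
      · exact fun i hi => mem_union_left _ (hab i hi).2.1
      · exact fun i hi => (hab i hi).2.2.1
      · intro i hi x hx
        refine hcol x hx _ (hab i hi).1 ?_
        rw [(hab i hi).2.2.2.1]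
        have := (mem_Ico.1 hi).1
        omega
      · intro i hi x hx
        refine hcol x hx _ (hab i hi).2.1 ?_
        rw [(hab i hi).2.2.2.2]
        have := (mem_Ico.1 hi).1
        omega
      · intro i hi j hj hij
        refine hs.1.2.1 _ (hab i hi).1 _ (hab j hj).1 ?_
        rw [(hab i hi).2.2.2.1, (hab j hj).2.2.2.1]
        exact hij
      · intro i hi j hj hij
        refine hs.1.2.1 _ (hab i hi).1 _ (hab j hj).2.1 ?_
        rw [(hab i hi).2.2.2.1, (hab j hj).2.2.2.2]
        exact hij
      · intro i hi j hj hij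
        refine hs.1.2.1 _ (hab i hi).2.1 _ (hab j hj).2.1 ?_
        rw [(hab i hi).2.2.2.2, (hab j hj).2.2.2.2]
        exact hij
    rw [Nat.card_Ico, Nat.sub_add_cancel hn] at hbad
    exact hc.ok.2 hbad
  · -- two nonneighbours
    have hk := hs.1.2.2.2 i h1.1
    rw [if_neg hi] at hk
    obtain ⟨x, hx⟩ := Finset.card_pos.1 (show 0 < (Y.filter fun x => c x = i).card by omega)
    have hx' := mem_filter.1 hx
    have hle := hc.sx x (mem_union_left _ hx'.1)
    have hsub : (Y.filter fun x => c x = i) ∪ {u, u'} ⊆ nb G (Y ∪ U) x := by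
      intro y hy
      rw [mem_union, mem_insert, mem_singleton] at hy
      rw [mem_nb]
      rcases hy with hy | rfl | rfl
      · have hy' := mem_filter.1 hy
        refine ⟨mem_union_left _ hy'.1, hs.1.2.2.1 x hx'.1 y hy'.1 ?_ ?_⟩
        · rw [hx'.2, hy'.2]
        · rw [hx'.2]
          exact hi
      · exact ⟨mem_union_right _ hu, fun h => h1.2.2 hi x hx'.1 hx'.2 h.symm⟩
      · exact ⟨mem_union_right _ hu', fun h => h2.2.2 hi x hx'.1 hx'.2 h.symm⟩
    have hcard := Finset.card_le_card hsub
    have hdisj : Disjoint (Y.filter fun x => c x = i) {u, u'} := by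
      rw [Finset.disjoint_right]
      intro x hx h
      have h' := (mem_filter.1 h).1
      rcases mem_insert.1 hx with rfl | hx
      · exact huY h'
      · rw [mem_singleton.1 hx] at h'
        exact huY' h'
    rw [Finset.card_union_of_disjoint hdisj, Finset.card_pair hne, hk] at hcard
    omega

theorem p_asm : AsmStm.{u} := by
  intro V G n q Y U c hc hs hty
  have h' : ∀ w : V, ∃ i, w ∈ U → Ty G n Y c i w := by
    intro w
    by_cases hw : w ∈ U
    · obtain ⟨i, hi⟩ := hty w hw
      exact ⟨i, fun _ => hi⟩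
    · exact ⟨0, fun h => absurd h hw⟩
  choose h hh using h'
  have hinj : ∀ x ∈ U, ∀ y ∈ U, h x = h y → x = y := by
    intro x hx y hy hxy
    by_contra hne
    exact inj hc hs hx hy hne (hh x hx) (hxy ▸ hh y hy)
  have hYU : ∀ x ∈ Y, x ∉ U := fun x hx => Finset.disjoint_left.1 hc.disj hx
  have himg : U.image h = Finset.range n := by
    refine Finset.eq_of_subset_of_card_le ?_ ?_
    · intro i hi
      obtain ⟨x, hx, rfl⟩ := mem_image.1 hi
      exact mem_range.2 (hh x hx).1
    · rw [Finset.card_image_of_injOn (fun x hx y hy => hinj x (mem_coe.1 hx) y (mem_coe.1 hy)),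
        card_range, hc.clq.2]
  have hone : ∀ i, i < n → (U.filter fun x => h x = i).card = 1 := by
    intro i hi
    have h1 : i ∈ U.image h := by
      rw [himg]
      exact mem_range.2 hi
    obtain ⟨x, hx, rfl⟩ := mem_image.1 h1
    rw [Finset.card_eq_one]
    refine ⟨x, ?_⟩
    ext y
    rw [mem_filter, mem_singleton]
    constructor
    · rintro ⟨hy, hyx⟩
      exact hinj y hy x hx hyx
    · rintro rfl
      exact ⟨hx, rfl⟩
  refine ⟨fun x => if x ∈ U then h x else c x, ?_, ?_, ?_, ?_⟩
  · intro x hx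
    by_cases hxU : x ∈ U
    · simp only [if_pos hxU]
      exact (hh x hxU).1
    · simp only [if_neg hxU]
      exact hs.1.1 x ((mem_union.1 hx).resolve_right hxU)
  · intro x hx y hy hxy
    by_cases hxU : x ∈ U <;> by_cases hyU : y ∈ U
    · refine hc.clq.1 (mem_coe.2 hxU) (mem_coe.2 hyU) ?_
      rintro rfl
      exact hxy rfl
    · simp only [if_pos hxU, if_neg hyU] at hxy
      exact (hh x hxU).2.1 y ((mem_union.1 hy).resolve_right hyU) (fun e => hxy e.symm)
    · simp only [if_neg hxU, if_pos hyU] at hxy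
      exact ((hh y hyU).2.1 x ((mem_union.1 hx).resolve_right hxU) hxy).symm
    · simp only [if_neg hxU, if_neg hyU] at hxy
      exact hs.1.2.1 x ((mem_union.1 hx).resolve_right hxU) y
        ((mem_union.1 hy).resolve_right hyU) hxy
  · intro x hx y hy hxy h0
    by_cases hxU : x ∈ U <;> by_cases hyU : y ∈ U
    · simp only [if_pos hxU, if_pos hyU] at hxy
      rw [hinj x hxU y hyU hxy]
      exact G.irrefl
    · simp only [if_pos hxU, if_neg hyU] at hxy h0
      exact (hh x hxU).2.2 h0 y ((mem_union.1 hy).resolve_right hyU) hxy.symm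
    · simp only [if_neg hxU, if_pos hyU] at hxy h0
      exact fun hadj => (hh y hyU).2.2 (hxy ▸ h0) x ((mem_union.1 hx).resolve_right hxU) hxy
        hadj.symm
    · simp only [if_neg hxU, if_neg hyU] at hxy h0
      exact hs.1.2.2.1 x ((mem_union.1 hx).resolve_right hxU) y
        ((mem_union.1 hy).resolve_right hyU) hxy h0
  · intro i hi
    have e1 : ((Y ∪ U).filter fun x => (if x ∈ U then h x else c x) = i) =
        (Y.filter fun x => c x = i) ∪ (U.filter fun x => h x = i) := by
      ext x
      simp only [mem_filter, mem_union]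
      constructor
      · rintro ⟨hx, hx2⟩
        by_cases hxU : x ∈ U
        · rw [if_pos hxU] at hx2
          exact Or.inr ⟨hxU, hx2⟩
        · rw [if_neg hxU] at hx2
          exact Or.inl ⟨hx.resolve_right hxU, hx2⟩
      · rintro (⟨hx, hx2⟩ | ⟨hx, hx2⟩)
        · refine ⟨Or.inl hx, ?_⟩
          rw [if_neg (hYU x hx)]
          exact hx2
        · refine ⟨Or.inr hx, ?_⟩
          rw [if_pos hx]
          exact hx2
    have e2 : Disjoint (Y.filter fun x => c x = i) (U.filter fun x => h x = i) :=
      Finset.disjoint_filter_filter hc.disj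
    rw [e1, Finset.card_union_of_disjoint e2, hone i hi, hs.1.2.2.2 i hi]
    by_cases h0 : i = 0
    · simp [h0]
    · simp [h0]

end Pool.Agent.W2helper6.AF
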